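import Mathlib.Data.Nat.SuccPred
import Mathlib.Data.Countable.Basic
import Mathlib.Tactic.Monotonicity.Lemmas
import Mathlib.Computability.TuringDegree

-- ======== part 0: formerly Pool.Agent.MP_219b86_lc.Oracle
section MrgPart0

/-!
A small toolbox for oracle computations: closure properties, codes and the use principle.
-/

namespace Pool.Agent.MP_219b86_lc

open Encodable

section closure

variable {α β γ : Type} [Primcodable α] [Primcodable β] [Primcodable γ] {O : Set (ℕ →. ℕ)}

lemma cin_comp {f : β → γ} {g : α → β} (hf : ComputableIn O f) (hg : ComputableIn O g) :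
    ComputableIn O fun a => f (g a) :=
  (Nat.RecursiveIn.comp hf hg).of_eq fun n => by
    simp only [Part.map_some, Part.bind_eq_bind]
    rcases e : decode (α := α) n with - | a <;> simp [encodek]

lemma cin_pair {f : α → β} {g : α → γ} (hf : ComputableIn O f) (hg : ComputableIn O g) :
    ComputableIn O fun a => (f a, g a) :=
  (Nat.RecursiveIn.pair hf hg).of_eq fun n => by
    cases decode (α := α) n <;> simp [Seq.seq]

lemma cin_of_eq {f g : α → β} (hf : ComputableIn O f) (h : ∀ a, f a = g a) : ComputableIn O g :=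
  (funext h : f = g) ▸ hf

open Classical in
/-- predicates decidable in the oracles `O` -/
def PIn (O : Set (ℕ →. ℕ)) (p : α → Prop) : Prop := ComputableIn O fun a => decide (p a)

lemma PIn.of_iff {p q : α → Prop} (hp : PIn O p) (h : ∀ a, p a ↔ q a) : PIn O q :=
  (funext fun a => propext (h a) : p = q) ▸ hp

lemma PIn.comp {p : β → Prop} {g : α → β} (hp : PIn O p) (hg : ComputableIn O g) :
    PIn O fun a => p (g a) := cin_comp hp hg

lemma PIn.comp' {p : β → Prop} {g : α → β} (hp : PIn O p) (hg : Primrec g) :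
    PIn O fun a => p (g a) := hp.comp hg.computableIn

open Classical in
lemma PIn.of_primrec {p : α → Prop} (hp : PrimrecPred p) : PIn O p :=
  hp.decide.computableIn

lemma PIn.and {p q : α → Prop} (hp : PIn O p) (hq : PIn O q) : PIn O fun a => p a ∧ q a :=
  cin_of_eq (cin_comp (Primrec.and.computableIn₂ (O := O)) (cin_pair hp hq)) fun a => by
    by_cases h1 : p a <;> by_cases h2 : q a <;> simp [h1, h2]

lemma PIn.or {p q : α → Prop} (hp : PIn O p) (hq : PIn O q) : PIn O fun a => p a ∨ q a :=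
  cin_of_eq (cin_comp (Primrec.or.computableIn₂ (O := O)) (cin_pair hp hq)) fun a => by
    by_cases h1 : p a <;> by_cases h2 : q a <;> simp [h1, h2]

lemma PIn.not {p : α → Prop} (hp : PIn O p) : PIn O fun a => ¬ p a :=
  cin_of_eq (cin_comp (Primrec.not.computableIn (O := O)) hp) fun a => by simp

open Classical in
lemma PIn.indicator {p : α → Prop} (hp : PIn O p) :
    ComputableIn O fun a => if p a then 1 else 0 :=
  cin_of_eq (cin_comp ((Primrec.dom_bool fun b => cond b 1 0).computableIn (O := O)) hp)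
    fun a => by by_cases h : p a <;> simp [h]

open Classical in
lemma PIn.of_indicator {p : α → Prop} (hp : ComputableIn O fun a => if p a then 1 else 0) :
    PIn O p :=
  (PIn.comp (PIn.of_primrec (Primrec.eq.comp Primrec.id (Primrec.const 1))) hp).of_iff
    fun a => by by_cases h : p a <;> simp [h]

open Classical in
lemma PIn.find {p : α × ℕ → Prop} (hp : PIn O p) (h : ∀ a, ∃ n, p (a, n)) :
    ComputableIn O fun a => Nat.find (h a) := by
  have h1 : ComputableIn O fun x => if ¬ p x then 1 else 0 := by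
    have := hp.not.indicator
    exact cin_of_eq this fun a => by by_cases h : p a <;> simp [h]
  refine (Nat.RecursiveIn.rfind h1).of_eq fun n => ?_
  rcases e : decode (α := α) n with - | a
  · simp [e, Nat.rfind_zero_none]
  · simp only [decode_prod_val, Nat.unpair_pair, e, Option.map_some, decode_nat,
      Option.bind_some, Part.coe_some, Part.bind_some, Part.map_some, encode_nat,
      Part.map_eq_map]
    rw [Part.eq_some_iff, Nat.mem_rfind]
    constructor
    · simpa using Nat.find_spec (h a)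
    · intro m hm
      simpa using Nat.find_min (h a) hm

end closure

/-- codes for oracle computations -/
inductive OCode : Type
  | zero : OCode
  | succ : OCode
  | left : OCode
  | right : OCode
  | oracle : OCode
  | pair : OCode → OCode → OCode
  | comp : OCode → OCode → OCode
  | prec : OCode → OCode → OCode
  | rfind : OCode → OCode

/-- numbering of the codes -/
def OCode.toN : OCode → ℕ
  | .zero => Nat.pair 0 0
  | .succ => Nat.pair 1 0
  | .left => Nat.pair 2 0
  | .right => Nat.pair 3 0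
  | .oracle => Nat.pair 4 0
  | .pair a b => Nat.pair 5 (Nat.pair a.toN b.toN)
  | .comp a b => Nat.pair 6 (Nat.pair a.toN b.toN)
  | .prec a b => Nat.pair 7 (Nat.pair a.toN b.toN)
  | .rfind a => Nat.pair 8 a.toN

lemma OCode.toN_inj : ∀ a b : OCode, a.toN = b.toN → a = b := by
  intro a
  induction a with
  | zero | succ | left | right | oracle => intro b h; cases b <;> simp_all [OCode.toN]
  | pair a₁ a₂ ih₁ ih₂ | comp a₁ a₂ ih₁ ih₂ | prec a₁ a₂ ih₁ ih₂ =>
    intro b h
    cases b <;> simp only [OCode.toN, Nat.pair_eq_pair] at h <;>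
      first | omega | rw [ih₁ _ h.2.1, ih₂ _ h.2.2]
  | rfind a ih =>
    intro b h
    cases b <;> simp only [OCode.toN, Nat.pair_eq_pair] at h <;>
      first | omega | rw [ih _ h.2]

instance : Countable OCode := ⟨⟨OCode.toN, fun a b => OCode.toN_inj a b⟩⟩

instance : Nonempty OCode := ⟨.zero⟩

/-- evaluation of a code with a total oracle -/
def OCode.eval (g : ℕ → ℕ) : OCode → ℕ →. ℕ
  | .zero => fun _ => 0
  | .succ => Nat.succ
  | .left => fun n => (Nat.unpair n).1
  | .right => fun n => (Nat.unpair n).2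
  | .oracle => fun n => Part.some (g n)
  | .pair a b => fun n => (Nat.pair <$> a.eval g n <*> b.eval g n)
  | .comp a b => fun n => b.eval g n >>= a.eval g
  | .prec a b => fun p =>
      let (x, n) := Nat.unpair p
      n.rec (a.eval g x) fun y IH => do
        let i ← IH
        b.eval g (Nat.pair x (Nat.pair y i))
  | .rfind a => fun x => Nat.rfind fun n => (fun m => m = 0) <$> a.eval g (Nat.pair x n)

lemma exists_ocode {g : ℕ → ℕ} {f : ℕ →. ℕ}
    (h : Nat.RecursiveIn {fun n => Part.some (g n)} f) : ∃ c : OCode, c.eval g = f := by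
  induction h with
  | zero => exact ⟨.zero, rfl⟩
  | succ => exact ⟨.succ, rfl⟩
  | left => exact ⟨.left, rfl⟩
  | right => exact ⟨.right, rfl⟩
  | oracle f hf => exact ⟨.oracle, by rw [Set.mem_singleton_iff.1 hf]; rfl⟩
  | pair _ _ ih₁ ih₂ =>
    obtain ⟨a, rfl⟩ := ih₁
    obtain ⟨b, rfl⟩ := ih₂
    exact ⟨.pair a b, rfl⟩
  | comp _ _ ih₁ ih₂ =>
    obtain ⟨a, rfl⟩ := ih₁
    obtain ⟨b, rfl⟩ := ih₂
    exact ⟨.comp a b, rfl⟩
  | prec _ _ ih₁ ih₂ =>
    obtain ⟨a, rfl⟩ := ih₁
    obtain ⟨b, rfl⟩ := ih₂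
    exact ⟨.prec a b, rfl⟩
  | rfind _ ih =>
    obtain ⟨a, rfl⟩ := ih
    exact ⟨.rfind a, rfl⟩

/-- `P` holds for all oracles close enough to `g` -/
def Near (g : ℕ → ℕ) (P : (ℕ → ℕ) → Prop) : Prop :=
  ∃ u : ℕ, ∀ g' : ℕ → ℕ, (∀ k < u, g' k = g k) → P g'

lemma Near.mono {g : ℕ → ℕ} {P Q : (ℕ → ℕ) → Prop} (h : Near g P) (hPQ : ∀ g', P g' → Q g') :
    Near g Q := by
  obtain ⟨u, hu⟩ := h
  exact ⟨u, fun g' hg' => hPQ g' (hu g' hg')⟩

lemma Near.and {g : ℕ → ℕ} {P Q : (ℕ → ℕ) → Prop} (h : Near g P) (h' : Near g Q) :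
    Near g fun g' => P g' ∧ Q g' := by
  obtain ⟨u, hu⟩ := h
  obtain ⟨v, hv⟩ := h'
  exact ⟨max u v, fun g' hg' => ⟨hu g' fun k hk => hg' k (by omega),
    hv g' fun k hk => hg' k (by omega)⟩⟩

lemma Near.ball {g : ℕ → ℕ} {P : ℕ → (ℕ → ℕ) → Prop} (v : ℕ) (h : ∀ m < v, Near g (P m)) :
    Near g fun g' => ∀ m < v, P m g' := by
  induction v with
  | zero => exact ⟨0, fun _ _ m hm => absurd hm (Nat.not_lt_zero m)⟩
  | succ v ih =>
    refine ((ih fun m hm => h m (by omega)).and (h v (by omega))).mono fun g' hg' m hm => ?_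
    rcases Nat.lt_succ_iff_lt_or_eq.1 hm with h1 | rfl
    · exact hg'.1 m h1
    · exact hg'.2

/-- the use principle -/
lemma use_principle (g : ℕ → ℕ) (c : OCode) :
    ∀ n v : ℕ, v ∈ c.eval g n → Near g fun g' => v ∈ c.eval g' n := by
  induction c with
  | zero | succ | left | right => exact fun n v h => ⟨0, fun _ _ => h⟩
  | oracle =>
    intro n v h
    refine ⟨n + 1, fun g' hg' => ?_⟩
    simp only [OCode.eval] at h ⊢
    rwa [hg' n (by omega)]
  | pair a b iha ihb =>
    intro n v h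
    simp only [OCode.eval, Seq.seq, Part.map_eq_map, Part.mem_bind_iff,
      Part.mem_map_iff] at h ⊢
    obtain ⟨f, ⟨x, hx, rfl⟩, y, hy, rfl⟩ := h
    exact ((iha n x hx).and (ihb n y hy)).mono fun g' hg' =>
      ⟨_, ⟨x, hg'.1, rfl⟩, y, hg'.2, rfl⟩
  | comp a b iha ihb =>
    intro n v h
    simp only [OCode.eval, Part.bind_eq_bind, Part.mem_bind_iff] at h ⊢
    obtain ⟨x, hx, hv⟩ := h
    exact ((ihb n x hx).and (iha x v hv)).mono fun g' hg' => ⟨x, hg'.1, hg'.2⟩
  | prec a b iha ihb =>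
    intro n v h
    simp only [OCode.eval] at h ⊢
    generalize (Nat.unpair n).2 = k at h ⊢
    induction k generalizing v with
    | zero => exact iha _ v h
    | succ k ih =>
      simp only [Part.bind_eq_bind, Part.mem_bind_iff] at h ⊢
      obtain ⟨x, hx, hv⟩ := h
      exact ((ih x hx).and (ihb _ v hv)).mono fun g' hg' => ⟨x, hg'.1, hg'.2⟩
  | rfind a iha =>
    intro n v h
    simp only [OCode.eval, Nat.mem_rfind, Part.map_eq_map, Part.mem_map_iff] at h ⊢
    obtain ⟨⟨x, hx, hx0⟩, hlt⟩ := h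
    have h2 : ∀ m < v, Near g fun g' => ∃ y ∈ a.eval g' (Nat.pair n m), decide (y = 0) = false := by
      intro m hm
      obtain ⟨y, hy, hy0⟩ := hlt hm
      exact (iha _ y hy).mono fun g' hg' => ⟨y, hg', hy0⟩
    exact ((iha _ x hx).and (Near.ball v h2)).mono fun g' hg' =>
      ⟨⟨x, hg'.1, hx0⟩, fun {m} hm => hg'.2 m hm⟩

end Pool.Agent.MP_219b86_lc

end MrgPart0

-- ======== part 1: formerly Pool.Agent.MP_219b86_lc.Events
section MrgPart1

/-!
Event sequences, alternation counts, the structures and a generic event sequence.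
-/

namespace Pool.Agent.MP_219b86_lc

/-- event sequences: a side and a number at each time -/
abbrev Ev : Type := ℕ → Bool × ℕ

/-- number of alternations of events with number below `n` in the time interval `[s, t)` -/
def st (e : Ev) (n s : ℕ) : ℕ → ℕ
  | 0 => 0
  | t + 1 => if s ≤ t ∧ (e t).2 < n ∧ (e t).1 = (st e n s t).bodd then st e n s t + 1
      else st e n s t

/-- event numbers tend to infinity -/
def Proper (e : Ev) : Prop := ∀ n, ∃ T, ∀ t, T ≤ t → n ≤ (e t).2

lemma st_mono (e : Ev) (n s : ℕ) : Monotone (st e n s) := by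
  refine monotone_nat_of_le_succ fun t => ?_
  simp only [st]
  split_ifs <;> omega

lemma st_zero (e : Ev) (n s : ℕ) {t : ℕ} (h : t ≤ s) : st e n s t = 0 := by
  induction t with
  | zero => rfl
  | succ t ih =>
    simp only [st]
    rw [if_neg (by omega), ih (by omega)]

lemma st_congr {e e' : Ev} (n s : ℕ) {t : ℕ} (h : ∀ k < t, e k = e' k) :
    st e n s t = st e' n s t := by
  induction t with
  | zero => rfl
  | succ t ih =>
    simp only [st]
    rw [ih fun k hk => h k (by omega), h t (by omega)]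

lemma st_stable {e : Ev} {n s T k : ℕ} (h : ∀ t, T ≤ t → ¬ ((e t).2 < n ∧ (e t).1 = k.bodd))
    (hT : st e n s T ≤ k) (t : ℕ) : st e n s t ≤ k := by
  rcases le_total t T with h1 | h1
  · exact (st_mono e n s h1).trans hT
  · induction t, h1 using Nat.le_induction with
    | base => exact hT
    | succ t ht ih =>
      simp only [st]
      split_ifs with hc
      · rcases ih.lt_or_eq with h2 | h2
        · omega
        · exact absurd ⟨hc.2.1, h2 ▸ hc.2.2⟩ (h t ht)
      · exact ih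

lemma st_decode {e : Ev} {n s T r : ℕ} (h : ∀ t, st e n s t ≤ r) (hT : r ≤ st e n s T)
    (t : ℕ) (h1 : T ≤ t) (h2 : s ≤ t) : ¬ ((e t).2 < n ∧ (e t).1 = r.bodd) := by
  intro hc
  have e1 : st e n s t = r := le_antisymm (h t) (hT.trans (st_mono e n s h1))
  have := h (t + 1)
  simp only [st] at this
  rw [if_pos ⟨h2, hc.1, e1 ▸ hc.2⟩] at this
  omega

/-- the code `⟨n, s, t, k⟩` satisfies `k ≤ st n s t` -/
def QQ (e : Ev) (m : ℕ) : Prop :=
  m.unpair.2.unpair.2.unpair.2 ≤ st e m.unpair.1 m.unpair.2.unpair.1 m.unpair.2.unpair.2.unpair.1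

/-- the code `⟨j, n, s⟩` satisfies `st n s t ≤ 2 j + ε` for all `t` -/
def Re (e : Ev) (ε : Bool) (z : ℕ) : Prop :=
  ∀ t, st e z.unpair.2.unpair.1 z.unpair.2.unpair.2 t ≤ 2 * z.unpair.1 + ε.toNat

/-- the relations of the structures -/
def rel (Q R d : ℕ → Prop) (i x y : ℕ) : Prop :=
  (i.unpair.1 = 0 ∧ Q i.unpair.2) ∨
  (i.unpair.1 = 1 ∧ x.unpair.1 = 0 ∧ y.unpair.1 = 0 ∧ R x.unpair.2 ∧ R y.unpair.2 ∧
    x.unpair.2.unpair.1 = y.unpair.2.unpair.1 ∧ y.unpair.2.unpair.2 = i.unpair.2) ∨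
  (i.unpair.1 = 2 ∧ (x.unpair.1 = 2 ∨ (x.unpair.1 = 1 ∧ d x.unpair.2)))

/-- coded diagram -/
def dg (Q R d : ℕ → Prop) (c : ℕ) : Prop :=
  rel Q R d c.unpair.1 c.unpair.2.unpair.1 c.unpair.2.unpair.2

open Classical in
/-- indicator function -/
noncomputable def ind (p : ℕ → Prop) (n : ℕ) : ℕ := if p n then 1 else 0

lemma ind_congr {p q : ℕ → Prop} {n : ℕ} (h : p n ↔ q n) : ind p n = ind q n := by
  unfold ind
  rw [propext h]

lemma dg_local {Q Q' R R' d : ℕ → Prop} {u : ℕ} (hQ : ∀ m < u, Q m ↔ Q' m)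
    (hR : ∀ m < u, R m ↔ R' m) {c : ℕ} (hc : c < u) : dg Q R d c ↔ dg Q' R' d c := by
  have a1 := Nat.unpair_left_le c
  have a2 := Nat.unpair_right_le c
  have a3 := Nat.unpair_left_le c.unpair.2
  have a4 := Nat.unpair_right_le c.unpair.2
  have a5 := Nat.unpair_right_le c.unpair.1
  have a6 := Nat.unpair_right_le c.unpair.2.unpair.1
  have a7 := Nat.unpair_right_le c.unpair.2.unpair.2
  unfold dg rel
  rw [hQ _ (by omega), hR c.unpair.2.unpair.1.unpair.2 (by omega),
    hR c.unpair.2.unpair.2.unpair.2 (by omega)]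

lemma dg_Re (Q R d : ℕ → Prop) (z : ℕ) :
    dg Q R d (Nat.pair (Nat.pair 1 z.unpair.2) (Nat.pair (Nat.pair 0 z) (Nat.pair 0 z))) ↔ R z := by
  simp [dg, rel]

lemma dg_Q (Q R d : ℕ → Prop) (m : ℕ) :
    dg Q R d (Nat.pair (Nat.pair 0 m) 0) ↔ Q m := by
  simp [dg, rel]

lemma dg_d (Q R d : ℕ → Prop) (m : ℕ) :
    dg Q R d (Nat.pair (Nat.pair 2 0) (Nat.pair (Nat.pair 1 m) 0)) ↔ d m := by
  simp [dg, rel]

lemma bodd_level (j : ℕ) (ε : Bool) : (2 * j + ε.toNat).bodd = ε := by
  cases ε <;> simp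

/-- `e` extends the condition `p` -/
def Ext (e : Ev) (p : Ev × ℕ × ℕ) : Prop :=
  (∀ t < p.2.1, e t = p.1 t) ∧ ∀ t, p.2.1 ≤ t → p.2.2 ≤ (e t).2

/-- the diagram of the structure of parity `ε` -/
def DD (e : Ev) (ε : Bool) : ℕ → Prop := dg (QQ e) (Re e ε) fun _ => False

lemma force_step (R : OCode × Bool) (p : Ev × ℕ × ℕ) : ∃ q : Ev × ℕ × ℕ,
    p.2.1 < q.2.1 ∧ p.2.2 < q.2.2 ∧ (∀ t < p.2.1, q.1 t = p.1 t) ∧
    (∀ t, p.2.1 ≤ t → t < q.2.1 → p.2.2 ≤ (q.1 t).2) ∧
    ∀ e, Ext e q → Proper e →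
      R.1.eval (ind (DD e (!R.2))) ≠ fun n => Part.some (ind (DD e R.2) n) := by
  obtain ⟨c, ε⟩ := R
  obtain ⟨σ, T, N⟩ := p
  set σ1 : Ev := Function.update σ T (false, N + 1 - ε.toNat) with hσ1
  set z : ℕ := Nat.pair 0 (Nat.pair (N + 1) T) with hz
  set w : ℕ := Nat.pair (Nat.pair 1 z.unpair.2) (Nat.pair (Nat.pair 0 z) (Nat.pair 0 z)) with hw
  have hε : ε.toNat ≤ 1 := Bool.toNat_le ε
  have hRe : ∀ e : Ev, DD e ε w ↔ ∀ t, st e (N + 1) T t ≤ ε.toNat := by
    intro e
    rw [DD, hw, dg_Re]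
    simp [Re, hz]
  have hst1 : ∀ e : Ev, e T = σ1 T → st e (N + 1) T (T + 1) = ε.toNat := by
    intro e he
    simp only [st, st_zero e (N + 1) T le_rfl, he, hσ1, Function.update_self]
    cases ε <;> simp
  have hstab : ∀ e : Ev, Ext e (σ1, T + 1, N + 1) → ∀ t, st e (N + 1) T t ≤ ε.toNat := by
    intro e he
    refine st_stable (T := T + 1) (fun t ht hc => ?_) (hst1 e (he.1 T (by simp))).le
    have := he.2 t ht
    simp only at this
    omega
  by_cases hA : ∃ e0, Ext e0 (σ1, T + 1, N + 1) ∧ Proper e0 ∧ 1 ∈ c.eval (ind (DD e0 (!ε))) w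
  · obtain ⟨e0, he0, hp0, hv⟩ := hA
    obtain ⟨u, hu⟩ := use_principle _ c w 1 hv
    obtain ⟨T0, hT0⟩ := hp0 u
    set T' := max (max T0 u) (T + 1) with hT'
    refine ⟨(Function.update e0 T' (ε, N), T' + 1, N + u + 1), by simp only; omega,
      by simp only; omega, fun t ht => ?_, fun t ht1 ht2 => ?_, fun e he _ heq => ?_⟩
    · simp only at ht ⊢
      rw [Function.update_of_ne (by omega), he0.1 t (by simp only; omega), hσ1]
      simp only
      rw [Function.update_of_ne (by omega)]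
    · simp only at ht1 ht2 ⊢
      by_cases h1 : t = T'
      · rw [h1, Function.update_self]
      · rw [Function.update_of_ne h1]
        by_cases h2 : t = T
        · rw [h2, he0.1 T (by simp), hσ1]
          simp only [Function.update_self]
          omega
        · have := he0.2 t (by simp only; omega)
          simp only at this
          omega
    · have hag : ∀ t < T', e t = e0 t := by
        intro t ht
        rw [he.1 t (by simp only; omega)]
        simp only
        rw [Function.update_of_ne (by omega)]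
      have hT'e : e T' = (ε, N) := by
        rw [he.1 T' (by simp)]
        simp
      have hafter : ∀ t, T' + 1 ≤ t → N + u + 1 ≤ (e t).2 := he.2
      have hQ : ∀ m < u, QQ e m ↔ QQ e0 m := by
        intro m hm
        have a2 := Nat.unpair_right_le m
        have a4 := Nat.unpair_right_le m.unpair.2
        have a5 := Nat.unpair_left_le m.unpair.2.unpair.2
        unfold QQ
        rw [st_congr _ _ fun k hk => hag k (by omega)]
      have hR : ∀ m < u, Re e (!ε) m ↔ Re e0 (!ε) m := by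
        intro m hm
        have a2 := Nat.unpair_right_le m
        have a3 := Nat.unpair_left_le m.unpair.2
        have hc := st_congr m.unpair.2.unpair.1 m.unpair.2.unpair.2 hag
        constructor
        · intro h
          refine st_stable (T := T') (fun t ht hc => ?_) (hc ▸ h T')
          have := hT0 t (by omega)
          omega
        · intro h
          refine st_stable (T := T') (fun t ht hc => ?_) (hc ▸ h T')
          rcases ht.eq_or_lt with h1 | h1
          · rw [← h1, hT'e, bodd_level] at hc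
            cases ε <;> simp at hc
          · have := hafter t h1
            omega
      have h1 : 1 ∈ c.eval (ind (DD e (!ε))) w := by
        refine hu _ fun k hk => ?_
        exact ind_congr (dg_local hQ hR hk)
      have h0 : ¬ DD e ε w := by
        rw [hRe]
        intro h
        have b1 : st e (N + 1) T T' = ε.toNat := by
          refine le_antisymm (h T') ?_
          rw [← hst1 e ((hag T (by omega)).trans (he0.1 T (by simp)))]
          exact st_mono e _ _ (by omega)
        have := h (T' + 1)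
        simp only [st] at this
        rw [if_pos ⟨by omega, by rw [hT'e]; simp, by rw [hT'e, b1]; cases ε <;> simp⟩] at this
        omega
      simp only at heq
      rw [heq] at h1
      simp [ind, h0] at h1
  · refine ⟨(σ1, T + 1, N + 1), by simp, by simp, fun t ht => ?_, fun t ht1 ht2 => ?_,
      fun e he hp heq => hA ⟨e, he, hp, ?_⟩⟩
    · simp only at ht ⊢
      rw [hσ1, Function.update_of_ne (by omega)]
    · simp only at ht1 ht2 ⊢
      rw [show t = T by omega, hσ1, Function.update_self]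
      simp only
      omega
    · simp only at heq
      rw [heq]
      simp [ind, (hRe e).2 (hstab e he)]

theorem exists_generic : ∃ e : Ev, Proper e ∧ ∀ ε : Bool,
    ¬ Nat.RecursiveIn {fun n => Part.some (ind (DD e (!ε)) n)}
      fun n => Part.some (ind (DD e ε) n) := by
  choose step h1 h2 h3 h4 h5 using force_step
  obtain ⟨f, hf⟩ := exists_surjective_nat (OCode × Bool)
  let p : ℕ → Ev × ℕ × ℕ := fun k => Nat.rec (fun _ => (false, 0), 0, 0) (fun k q => step (f k) q) k
  have hp : ∀ k, p (k + 1) = step (f k) (p k) := fun k => rfl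
  have hT : ∀ k, k ≤ (p k).2.1 := by
    intro k
    induction k with
    | zero => exact Nat.zero_le _
    | succ k ih => have := h1 (f k) (p k); rw [hp]; omega
  have hN : ∀ k, k ≤ (p k).2.2 := by
    intro k
    induction k with
    | zero => exact Nat.zero_le _
    | succ k ih => have := h2 (f k) (p k); rw [hp]; omega
  have hchain : ∀ k l, k ≤ l → (p k).2.1 ≤ (p l).2.1 ∧ (p k).2.2 ≤ (p l).2.2 ∧
      (∀ t < (p k).2.1, (p l).1 t = (p k).1 t) ∧
      ∀ t, (p k).2.1 ≤ t → t < (p l).2.1 → (p k).2.2 ≤ ((p l).1 t).2 := by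
    intro k l hkl
    induction l, hkl using Nat.le_induction with
    | base => exact ⟨le_rfl, le_rfl, fun _ _ => rfl, fun t a b => by omega⟩
    | succ l hl ih =>
      obtain ⟨i1, i2, i3, i4⟩ := ih
      have a1 := h1 (f l) (p l)
      have a2 := h2 (f l) (p l)
      rw [hp]
      refine ⟨by omega, by omega, fun t ht => ?_, fun t ht1 ht2 => ?_⟩
      · rw [h3 _ _ t (by omega), i3 t ht]
      · by_cases h : t < (p l).2.1
        · rw [h3 _ _ t h]
          exact i4 t ht1 h
        · exact i2.trans (h4 _ _ t (by omega) ht2)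
  let e : Ev := fun t => (p (t + 1)).1 t
  have he : ∀ l t, t < (p l).2.1 → e t = (p l).1 t := by
    intro l t ht
    rcases le_total l (t + 1) with h | h
    · exact (hchain l (t + 1) h).2.2.1 t ht
    · exact ((hchain (t + 1) l h).2.2.1 t (hT (t + 1))).symm
  have hext : ∀ k, Ext e (p k) := by
    intro k
    refine ⟨he k, fun t ht => ?_⟩
    have h := hT (max k (t + 1))
    rw [he (max k (t + 1)) t (by omega)]
    exact (hchain k _ (le_max_left _ _)).2.2.2 t ht (by omega)
  have hprop : Proper e := fun n => ⟨(p n).2.1, fun t ht => (hN n).trans ((hext n).2 t ht)⟩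
  refine ⟨e, hprop, fun ε hrec => ?_⟩
  obtain ⟨c, hc⟩ := exists_ocode hrec
  obtain ⟨k, hk⟩ := hf (c, ε)
  have := h5 (f k) (p k) e (hext (k + 1)) hprop
  rw [hk] at this
  exact this hc

end Pool.Agent.MP_219b86_lc

end MrgPart1

-- ======== part 2: formerly Pool.Agent.MP_219b86_lc.Main
section MrgPart2

/-!
The spectrum computation at the level of families of binary relations.
-/

namespace Pool.Agent.MP_219b86_lc

/-- embeddings of families of binary relations -/
def Emb (A B : ℕ → ℕ → ℕ → Prop) : Prop :=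
  ∃ f : ℕ → ℕ, Function.Injective f ∧ ∀ i x y, B i (f x) (f y) ↔ A i x y

/-- coded diagram of a family of binary relations -/
def cd (B : ℕ → ℕ → ℕ → Prop) (c : ℕ) : Prop := B c.unpair.1 c.unpair.2.unpair.1 c.unpair.2.unpair.2

lemma emb_models (e : Ev) (ε ε' : Bool) (d d' : ℕ → Prop) :
    Emb (rel (QQ e) (Re e ε) d) (rel (QQ e) (Re e ε') d') := by
  classical
  let real : ℕ → Prop := fun x => x.unpair.1 = 0 ∧ Re e ε x.unpair.2
  let J : ℕ → Prop := fun x => x.unpair.1 = 2 ∨ (x.unpair.1 = 1 ∧ d x.unpair.2)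
  let f : ℕ → ℕ := fun x => if real x then
    Nat.pair 0 (Nat.pair (x.unpair.2.unpair.1 + 1) x.unpair.2.unpair.2)
    else if J x then Nat.pair 2 x else Nat.pair 3 x
  have hreal : ∀ x, real x → Re e ε' (Nat.pair (x.unpair.2.unpair.1 + 1) x.unpair.2.unpair.2) := by
    intro x hx t
    have := hx.2 t
    have h1 := Bool.toNat_le ε
    simp only [Nat.unpair_pair]
    omega
  have f1 : ∀ x, real x → f x =
      Nat.pair 0 (Nat.pair (x.unpair.2.unpair.1 + 1) x.unpair.2.unpair.2) :=
    fun x hx => if_pos hx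
  have f2 : ∀ x, ¬ real x → J x → f x = Nat.pair 2 x :=
    fun x hx hj => (if_neg hx).trans (if_pos hj)
  have f3 : ∀ x, ¬ real x → ¬ J x → f x = Nat.pair 3 x :=
    fun x hx hj => (if_neg hx).trans (if_neg hj)
  have g1 : ∀ x, ((f x).unpair.1 = 0 ∧ Re e ε' (f x).unpair.2) ↔ real x := by
    intro x
    by_cases hx : real x
    · rw [f1 x hx]; simp [hx, hreal x hx]
    · by_cases hj : J x
      · rw [f2 x hx hj]; simp [hx]
      · rw [f3 x hx hj]; simp [hx]
  have g2 : ∀ x, ((f x).unpair.1 = 2 ∨ ((f x).unpair.1 = 1 ∧ d' (f x).unpair.2)) ↔ J x := by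
    intro x
    by_cases hx : real x
    · have : ¬ J x := by
        rintro (h | h) <;> have := hx.1 <;> omega
      rw [f1 x hx]; simp [this]
    · by_cases hj : J x
      · rw [f2 x hx hj]; simp [hj]
      · rw [f3 x hx hj]; simp [hj]
  refine ⟨f, fun x y hxy => ?_, fun i x y => ?_⟩
  · by_cases hx : real x
    · have hy : real y := (g1 y).1 (hxy ▸ (g1 x).2 hx)
      rw [f1 x hx, f1 y hy] at hxy
      simp only [Nat.pair_eq_pair, true_and, add_left_inj] at hxy
      rw [← Nat.pair_unpair x, ← Nat.pair_unpair y, hx.1, hy.1, ← Nat.pair_unpair x.unpair.2,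
        ← Nat.pair_unpair y.unpair.2, hxy.1, hxy.2]
    · have hy : ¬ real y := fun hy => hx ((g1 x).1 (hxy ▸ (g1 y).2 hy))
      by_cases hj : J x
      · have hj' : J y := (g2 y).1 (hxy ▸ (g2 x).2 hj)
        rw [f2 x hx hj, f2 y hy hj'] at hxy
        exact (Nat.pair_eq_pair.1 hxy).2
      · have hj' : ¬ J y := fun hy => hj ((g2 x).1 (hxy ▸ (g2 y).2 hy))
        rw [f3 x hx hj, f3 y hy hj'] at hxy
        exact (Nat.pair_eq_pair.1 hxy).2
  · unfold rel
    rw [g2 x]
    refine or_congr Iff.rfl (or_congr (and_congr_right fun _ => ?_) Iff.rfl)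
    constructor
    · rintro ⟨a1, a2, a3, a4, a5, a6⟩
      have hx := (g1 x).1 ⟨a1, a3⟩
      have hy := (g1 y).1 ⟨a2, a4⟩
      rw [f1 x hx, f1 y hy] at a5
      rw [f1 y hy] at a6
      simp only [Nat.unpair_pair, add_left_inj] at a5 a6
      exact ⟨hx.1, hy.1, hx.2, hy.2, a5, a6⟩
    · rintro ⟨a1, a2, a3, a4, a5, a6⟩
      have hx : real x := ⟨a1, a3⟩
      have hy : real y := ⟨a2, a4⟩
      refine ⟨((g1 x).2 hx).1, ((g1 y).2 hy).1, ((g1 x).2 hx).2, ((g1 y).2 hy).2, ?_, ?_⟩
      · rw [f1 x hx, f1 y hy]; simp [a5]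
      · rw [f1 y hy]; simp [a6]

section prim

variable {α : Type} [Primcodable α]

lemma pl {f : α → ℕ} (hf : Primrec f) : Primrec fun a => (f a).unpair.1 :=
  Primrec.fst.comp (Primrec.unpair.comp hf)

lemma pr {f : α → ℕ} (hf : Primrec f) : Primrec fun a => (f a).unpair.2 :=
  Primrec.snd.comp (Primrec.unpair.comp hf)

lemma pp {f g : α → ℕ} (hf : Primrec f) (hg : Primrec g) : Primrec fun a => Nat.pair (f a) (g a) :=
  Primrec₂.natPair.comp hf hg

lemma peq {O : Set (ℕ →. ℕ)} {f g : α → ℕ} (hf : Primrec f) (hg : Primrec g) :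
    PIn O fun a => f a = g a := PIn.of_primrec (Primrec.eq.comp hf hg)

lemma ple {O : Set (ℕ →. ℕ)} {f g : α → ℕ} (hf : Primrec f) (hg : Primrec g) :
    PIn O fun a => f a ≤ g a := PIn.of_primrec (Primrec.nat_le.comp hf hg)

lemma pc (n : ℕ) : Primrec fun _ : α => n := Primrec.const n

end prim

lemma pid : Primrec fun n : ℕ => n := Primrec.id

lemma pin_dg {O : Set (ℕ →. ℕ)} {Q R d : ℕ → Prop} (hQ : PIn O Q) (hR : PIn O R) (hd : PIn O d) :
    PIn O (dg Q R d) := by
  unfold dg rel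
  exact ((peq (pl (pl pid)) (pc 0)).and (hQ.comp' (pr (pl pid)))).or
    (((peq (pl (pl pid)) (pc 1)).and ((peq (pl (pl (pr pid))) (pc 0)).and
      ((peq (pl (pr (pr pid))) (pc 0)).and ((hR.comp' (pr (pl (pr pid)))).and
      ((hR.comp' (pr (pr (pr pid)))).and ((peq (pl (pr (pl (pr pid)))) (pl (pr (pr (pr pid))))).and
      (peq (pr (pr (pr (pr pid)))) (pr (pl pid))))))))).or
    ((peq (pl (pl pid)) (pc 2)).and ((peq (pl (pl (pr pid))) (pc 2)).or
      ((peq (pl (pl (pr pid))) (pc 1)).and (hd.comp' (pr (pl (pr pid))))))))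

lemma pin_Q {O : Set (ℕ →. ℕ)} {Q R d : ℕ → Prop} (h : PIn O (dg Q R d)) : PIn O Q :=
  (h.comp' (pp (pp (pc 0) pid) (pc 0))).of_iff fun m => dg_Q Q R d m

lemma pin_R {O : Set (ℕ →. ℕ)} {Q R d : ℕ → Prop} (h : PIn O (dg Q R d)) : PIn O R :=
  (h.comp' (pp (pp (pc 1) (pr pid)) (pp (pp (pc 0) pid) (pp (pc 0) pid)))).of_iff
    fun m => dg_Re Q R d m

lemma pin_d {O : Set (ℕ →. ℕ)} {Q R d : ℕ → Prop} (h : PIn O (dg Q R d)) : PIn O d :=
  (h.comp' (pp (pc (Nat.pair 2 0)) (pp (pp (pc 1) pid) (pc 0)))).of_iff fun m => dg_d Q R d m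

lemma pin_false {O : Set (ℕ →. ℕ)} : PIn O fun _ : ℕ => False :=
  (peq (O := O) (pc 0) (pc 1)).of_iff fun _ => by simp

theorem decode_main {e : Ev} (he : Proper e) {B : ℕ → ℕ → ℕ → Prop}
    (h1 : Emb (rel (QQ e) (Re e false) fun _ => False) B)
    (h2 : Emb B (rel (QQ e) (Re e false) fun _ => False)) :
    ∃ ε : Bool, ∀ O : Set (ℕ →. ℕ), PIn O (cd B) → PIn O (DD e ε) := by
  classical
  obtain ⟨f, -, hf⟩ := h1
  obtain ⟨g, -, hg⟩ := h2
  set x0 : ℕ := f (Nat.pair 0 (Nat.pair 0 (Nat.pair 0 0))) with hx0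
  let P : ℕ → Prop := fun r => ∀ N, ∃ n s y t, N ≤ n ∧ B (Nat.pair 1 (Nat.pair n s)) x0 y ∧
    r ≤ st e n s t
  have hP0 : P 0 := by
    intro N
    obtain ⟨T, hT⟩ := he N
    refine ⟨N, T, f (Nat.pair 0 (Nat.pair 0 (Nat.pair N T))), 0, le_rfl, ?_, Nat.zero_le _⟩
    rw [hx0, hf]
    have a1 : ∀ t, st e N T t ≤ 0 :=
      st_stable (T := T) (fun t ht hc => by have := hT t ht; omega) (st_zero e N T le_rfl).le
    have a2 : ∀ t, st e 0 0 t ≤ 0 :=
      st_stable (T := 0) (fun t ht hc => by omega) (st_zero e 0 0 le_rfl).le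
    simp only [rel, Re, Nat.unpair_pair]
    exact Or.inr (Or.inl ⟨trivial, trivial, trivial, a2, a1, trivial, trivial⟩)
  have hPk : ∃ r, ¬ P (r + 1) := by
    refine ⟨2 * (g x0).unpair.2.unpair.1, fun h => ?_⟩
    obtain ⟨n, s, y, t, -, hB, ht⟩ := h 0
    rw [← hg] at hB
    simp only [rel, Nat.unpair_pair] at hB
    rcases hB with ⟨h, -⟩ | ⟨-, -, -, -, a4, a5, a6⟩ | ⟨h, -⟩
    · omega
    · have := a4 t
      rw [a6, ← a5] at this
      simp only [Nat.unpair_pair, Bool.toNat_false] at this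
      omega
    · omega
  obtain ⟨r, hr1, hr2⟩ : ∃ r, P r ∧ ¬ P (r + 1) := by
    refine ⟨Nat.find hPk, ?_, Nat.find_spec hPk⟩
    rcases h : Nat.find hPk with - | k
    · exact hP0
    · exact not_not.1 (Nat.find_min hPk (by omega))
  obtain ⟨n0, hn0⟩ : ∃ n0, ∀ n s y, n0 ≤ n → B (Nat.pair 1 (Nat.pair n s)) x0 y →
      ∀ t, st e n s t ≤ r := by
    simp only [P, not_forall, not_exists, not_and, not_le] at hr2
    obtain ⟨n0, h⟩ := hr2
    exact ⟨n0, fun n s y a b t => Nat.lt_succ_iff.1 (h n s y t a b)⟩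
  refine ⟨r.bodd, fun O hB => ?_⟩
  have hQ : PIn O (QQ e) := by
    refine (hB.comp' (pp (pp (pc 0) pid) (pc 0))).of_iff fun m => ?_
    simp only [cd, Nat.unpair_pair]
    rw [← hg]
    simp [rel]
  let p : ℕ × ℕ → Prop := fun a => a.1 + n0 ≤ a.2.unpair.1 ∧
    cd B (Nat.pair (Nat.pair 1 (Nat.pair a.2.unpair.1 a.2.unpair.2.unpair.1))
      (Nat.pair x0 a.2.unpair.2.unpair.2.unpair.1)) ∧
    QQ e (Nat.pair a.2.unpair.1 (Nat.pair a.2.unpair.2.unpair.1
      (Nat.pair a.2.unpair.2.unpair.2.unpair.2 r)))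
  have hp : PIn O p :=
    (ple (Primrec.nat_add.comp Primrec.fst (pc n0)) (pl Primrec.snd)).and
      ((hB.comp' (pp (pp (pc 1) (pp (pl Primrec.snd) (pl (pr Primrec.snd))))
        (pp (pc x0) (pl (pr (pr Primrec.snd)))))).and
      (hQ.comp' (pp (pl Primrec.snd) (pp (pl (pr Primrec.snd))
        (pp (pr (pr (pr Primrec.snd))) (pc r))))))
  have hex : ∀ N, ∃ w, p (N, w) := by
    intro N
    obtain ⟨n, s, y, t, a1, a2, a3⟩ := hr1 (N + n0)
    refine ⟨Nat.pair n (Nat.pair s (Nat.pair y t)), ?_⟩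
    simp only [p, cd, QQ, Nat.unpair_pair]
    exact ⟨a1, a2, a3⟩
  obtain ⟨T, hfind, hT⟩ : ∃ T : ℕ → ℕ, ComputableIn O T ∧ ∀ N, p (N, T N) :=
    ⟨_, hp.find hex, fun N => @Nat.find_spec _ (fun _ => Classical.propDecidable _) (hex N)⟩
  have hquiet : ∀ N t, T N ≤ t → ¬ ((e t).2 < N ∧ (e t).1 = r.bodd) := by
    intro N t ht hc
    obtain ⟨a1, a2, a3⟩ := hT N
    generalize T N = w at ht a1 a2 a3
    simp only [cd, QQ, Nat.unpair_pair] at a1 a2 a3
    have b1 := Nat.unpair_right_le w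
    have b2 := Nat.unpair_left_le w.unpair.2
    have b3 := Nat.unpair_right_le w.unpair.2
    have b4 := Nat.unpair_right_le w.unpair.2.unpair.2
    exact st_decode (hn0 _ _ _ (by omega) a2) a3 t (by omega) (by omega) ⟨by omega, hc.2⟩
  have hR : PIn O (Re e r.bodd) := by
    have c0 : ComputableIn O fun z : ℕ => T z.unpair.2.unpair.1 :=
      cin_comp hfind (pl (pr pid)).computableIn
    have c1 : ComputableIn O fun z : ℕ => (z, T z.unpair.2.unpair.1) :=
      cin_pair pid.computableIn c0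
    have c2 : PIn O fun a : ℕ × ℕ => ¬ QQ e (Nat.pair a.1.unpair.2.unpair.1
        (Nat.pair a.1.unpair.2.unpair.2 (Nat.pair a.2 (2 * a.1.unpair.1 + r.bodd.toNat + 1)))) :=
      (hQ.comp' (pp (pl (pr Primrec.fst)) (pp (pr (pr Primrec.fst)) (pp Primrec.snd
        (Primrec.succ.comp (Primrec.nat_add.comp (Primrec.nat_mul.comp (pc 2) (pl Primrec.fst))
          (pc _))))))).not
    refine (c2.comp c1).of_iff fun z => ?_
    simp only [QQ, Nat.unpair_pair, not_le, Nat.lt_succ_iff]
    constructor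
    · intro h
      refine st_stable (fun t ht => ?_) h
      rw [bodd_level]
      exact hquiet _ t ht
    · intro h
      exact h _
  exact pin_dg hQ hR pin_false

/-- the oracle given by a predicate -/
noncomputable def orc (p : ℕ → Prop) : ℕ →. ℕ := fun n => Part.some (ind p n)

lemma pin_iff {O : Set (ℕ →. ℕ)} {p : ℕ → Prop} : PIn O p ↔ RecursiveIn O (orc p) :=
  ⟨fun h => h.indicator, fun h => PIn.of_indicator h⟩

lemma pin_self (p : ℕ → Prop) : PIn {orc p} p := pin_iff.2 (TuringReducible.refl _)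

theorem spectrum : ∃ (A : ℕ → ℕ → ℕ → Prop) (a b : ℕ → Prop),
    ¬ TuringReducible (orc a) (orc b) ∧ ¬ TuringReducible (orc b) (orc a) ∧
    ∀ d : ℕ → Prop, (∃ B, Emb A B ∧ Emb B A ∧ TuringEquivalent (orc (cd B)) (orc d)) ↔
      (TuringReducible (orc a) (orc d) ∨ TuringReducible (orc b) (orc d)) := by
  obtain ⟨e, he, hinc⟩ := exists_generic
  refine ⟨rel (QQ e) (Re e false) fun _ => False, DD e false, DD e true,
    fun h => hinc false (RecursiveIn.iff_nat.1 h), fun h => hinc true (RecursiveIn.iff_nat.1 h),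
    fun d => ⟨?_, ?_⟩⟩
  · rintro ⟨B, h1, h2, h3, -⟩
    obtain ⟨ε, hε⟩ := decode_main he h1 h2
    have := pin_iff.1 (hε {orc d} (pin_iff.2 h3))
    cases ε
    · exact Or.inl this
    · exact Or.inr this
  · intro h
    obtain ⟨ε, hε⟩ : ∃ ε, TuringReducible (orc (DD e ε)) (orc d) := h.elim (⟨_, ·⟩) (⟨_, ·⟩)
    have h1 : PIn {orc d} (DD e ε) := pin_iff.2 hε
    refine ⟨rel (QQ e) (Re e ε) d, emb_models e _ _ _ _, emb_models e _ _ _ _, ?_, ?_⟩
    · exact pin_iff.1 (pin_dg (pin_Q h1) (pin_R h1) (pin_self d))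
    · exact pin_iff.1 (pin_d (pin_self (dg (QQ e) (Re e ε) d)))

end Pool.Agent.MP_219b86_lc

end MrgPart2

-- marker of a merged file
example : 731051 + 398258 = 731051 + 398258 := rfl
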